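import Pool.Agent.KS6_29.FJ.D

/-!
# Entire functions with Fejér gaps can grow arbitrarily slowly along a ray

(i) For every function `ψ` tending to infinity (however slowly) there is a transcendental entire
function `f` with Fejér gaps and `|f(r)| ≤ ψ (M(r, f))` for all large positive `r`.

(ii) For every `φ(k) = o(log log k)` there is a transcendental entire function `f` whose exponents
`λ_k` satisfy `∑ 1 / λ_k < ∞` and `∑ φ(k) / λ_k < ∞` while `log |f(r)| ≤ o(log M(r, f))` along the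
positive ray; in particular `limsup log m₀(r, f) / log M(r, f) ≤ 0`.
-/

set_option autoImplicit false

open Filter Topology

namespace Pool.Agent.Results.MP_a091fe_an.SharpNazarovCondition

open Pool.Agent.KS6_29.FJ

/-- minimum modulus -/
noncomputable def m₀ (f : ℂ → ℂ) (r : ℝ) : ℝ :=
  sInf ((fun z => ‖f z‖) '' Metric.sphere (0 : ℂ) r)

theorem result :
    (∀ ψ : ℝ → ℝ, Tendsto ψ atTop atTop →
      ∃ (f : ℂ → ℂ) (lam : ℕ → ℕ), FejerSeries f lam ∧
        ∀ᶠ r : ℝ in atTop, ‖f (r : ℂ)‖ ≤ ψ (M f r)) ∧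
    (∀ φ : ℕ → ℝ, Tendsto (fun k : ℕ => φ k / Real.log (Real.log k)) atTop (𝓝 0) →
      ∃ (f : ℂ → ℂ) (lam : ℕ → ℕ), FejerSeries f lam ∧ Summable (fun k => φ k / lam k) ∧
        ∀ ε : ℝ, 0 < ε → ∀ᶠ r : ℝ in atTop,
          1 ≤ M f r ∧ m₀ f r ≤ ‖f (r : ℂ)‖ ∧ ‖f (r : ℂ)‖ ≤ M f r ^ ε ∧
          Real.log (m₀ f r) ≤ ε * Real.log (M f r)) := by
  refine ⟨slow, fun φ hφ => ?_⟩
  obtain ⟨f, lam, h1, h2, h3⟩ := sharp φ hφ
  refine ⟨f, lam, h1, h2, fun ε hε => ?_⟩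
  filter_upwards [h3 ε hε, eventually_ge_atTop 0] with r hr hr0
  have h4 : m₀ f r ≤ ‖f (r : ℂ)‖ := by
    refine csInf_le ⟨0, by rintro x ⟨z, _, rfl⟩; exact norm_nonneg _⟩ ⟨(r : ℂ), ?_, rfl⟩
    rw [mem_sphere_zero_iff_norm, Complex.norm_real, Real.norm_of_nonneg hr0]
  refine ⟨hr.1, h4, hr.2, ?_⟩
  have h5 : 0 ≤ m₀ f r := Real.sInf_nonneg (by rintro x ⟨z, _, rfl⟩; exact norm_nonneg _)
  have h6 : 0 ≤ Real.log (M f r) := Real.log_nonneg hr.1
  rcases h5.eq_or_lt with h | h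
  · rw [← h, Real.log_zero]; positivity
  · rw [← Real.log_rpow (by linarith [hr.1])]
    exact Real.log_le_log h (h4.trans hr.2)

end Pool.Agent.Results.MP_a091fe_an.SharpNazarovCondition
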